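import Pool.Agent.helper32.PN.Spec

set_option autoImplicit false

namespace Pool.Agent.PN

open Module Polynomial Pool.Agent.helper27.PC

noncomputable section

theorem K1_good (m : ℕ) : ∀ (k k₀ : ℕ) (S₀ S : St), SD_Good m k₀ S₀ → S ∈ ends k S₀ →
    SD_Good m (k₀ + k) S := by
  intro k
  induction k with
  | zero =>
    intro k₀ S₀ S h0 hS
    have : S = S₀ := by
      unfold ends at hS
      exact Finset.mem_singleton.1 hS
    rw [this]
    exact h0
  | succ k ih =>
    intro k₀ S₀ S h0 hS
    unfold ends at hS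
    rw [Finset.mem_biUnion] at hS
    obtain ⟨l, hl, hS⟩ := hS
    have h1 := ih (k₀ + 1) (move 1 S₀ l) S (SD_good_move h0 hl) hS
    have e : k₀ + 1 + k = k₀ + (k + 1) := by ring
    rw [← e]
    exact h1

theorem K1_pt_rem (t : Bool) (m : ℕ) (S : St) (y : Lab) (hy : y ∈ remv 1 S) :
    pt t m S = pt t m (rem 1 S y) + 2 * ((y.2 : ℤ) - m + tb t y.1) := by
  unfold remv at hy
  rw [Finset.mem_filter] at hy
  obtain ⟨hy1, hy2, hy3⟩ := hy
  unfold pt rem
  have h1 : dn 1 y ∉ S.erase y := fun h => hy3 (Finset.mem_of_mem_erase h)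
  rw [Finset.sum_insert h1, ← Finset.add_sum_erase S _ hy1]
  obtain ⟨b, p⟩ := y
  have hp : 1 ≤ p := hy2
  have e1 : ((dn 1 (b, p)).2 : ℤ) = (p : ℤ) - 1 := by
    show ((p - 1 : ℕ) : ℤ) = (p : ℤ) - 1
    omega
  have e2 : (dn 1 (b, p)).1 = b := rfl
  rw [e1, e2]
  ring

theorem K1_cnt (S : St) (l : Lab) : cnt S l 1 = 0 := by
  unfold cnt
  rw [Finset.card_eq_zero, Finset.filter_eq_empty_iff]
  intro y _ h
  omega

theorem K1 (hNPR : NPR_stmt) : K1_stmt := by
  intro t m k
  induction k with
  | zero =>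
    intro S
    have hU : U t m (List.replicate 0 1) S = if S = vac m then 1 else 0 := rfl
    have hE : S ∈ ends 0 (vac m) ↔ S = vac m := by
      unfold ends
      exact Finset.mem_singleton
    refine ⟨fun h => ?_, fun h => ?_⟩
    · rw [hU, if_neg (fun h' => h (hE.2 h'))]
    · have h1 := hE.1 h
      subst h1
      have h2 : e1 t m 0 (vac m) = 0 := by
        unfold e1
        simp
      have h3 : np 0 (vac m) (vac m) = 1 := by
        unfold np paths
        simp
      rw [hU, if_pos rfl, h2, h3]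
      simp
  | succ k ih =>
    intro S
    have hU : U t m (List.replicate (k + 1) 1) S = ∑ y ∈ remv 1 S,
        wP t m k 1 (dn 1 y) * U t m (List.replicate k 1) (rem 1 S y) := by
      rw [List.replicate_succ]
      have hU0 : U t m (1 :: List.replicate k 1) S = ∑ y ∈ remv 1 S,
          (-1) ^ cnt S (dn 1 y) 1 * wP t m (List.replicate k 1).sum 1 (dn 1 y) *
            U t m (List.replicate k 1) (rem 1 S y) := rfl
      rw [hU0]
      apply Finset.sum_congr rfl
      intro y _
      rw [K1_cnt, pow_zero, one_mul, List.sum_replicate, smul_eq_mul, mul_one]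
    obtain ⟨hn1, hn2, hn3⟩ := hNPR k (vac m) S
    refine ⟨fun h => ?_, fun h => ?_⟩
    · rw [hU]
      apply Finset.sum_eq_zero
      intro y hy
      rw [(ih (rem 1 S y)).1 (fun h' => h (hn2.2 ⟨y, hy, h'⟩)), mul_zero]
    · have hgood : SD_Good m (0 + (k + 1)) S := K1_good m (k + 1) 0 (vac m) S (SD_good_vac m) h
      -- the exponent of one step
      have hstep : ∀ y ∈ remv 1 S, rem 1 S y ∈ ends k (vac m) →
          2 * ((k + 1 + (dn 1 y).2 + tb t (dn 1 y).1 - m + e1 t m k (rem 1 S y) : ℕ) : ℤ) =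
            ((k + 1 : ℕ) : ℤ) * (((k + 1 : ℕ) : ℤ) - 1) + pt t m S - pt t m (vac m) := by
        intro y hy hy'
        have h1 := ((ih (rem 1 S y)).2 hy').1
        have h2 := K1_pt_rem t m S y hy
        unfold remv at hy
        rw [Finset.mem_filter] at hy
        obtain ⟨hy1, hy2, hy3⟩ := hy
        have h4 : (dn 1 y).2 ∉ SD_pos y.1 S := fun h => hy3 (SD_mem_pos.1 h)
        have h5 := SD_good_hole hgood h4
        have e1' : (dn 1 y).2 = y.2 - 1 := rfl
        have e2' : (dn 1 y).1 = y.1 := rfl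
        rw [e1'] at h5
        rw [e1', e2']
        have h6 : ((k + 1 + (y.2 - 1) + tb t y.1 - m : ℕ) : ℤ) = k + y.2 + tb t y.1 - m := by
          omega
        push_cast
        push_cast at h6
        rw [mul_add, h1, h6, h2]
        ring
      obtain ⟨y₀, hy₀, hy₀'⟩ := hn2.1 h
      have he : 2 * (e1 t m (k + 1) S : ℤ) =
          ((k + 1 : ℕ) : ℤ) * (((k + 1 : ℕ) : ℤ) - 1) + pt t m S - pt t m (vac m) := by
        have h7 := hstep y₀ hy₀ hy₀'
        unfold e1
        rw [← h7]
        generalize k + 1 + (dn 1 y₀).2 + tb t (dn 1 y₀).1 - m +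
          (((k : ℤ) * (k - 1) + pt t m (rem 1 S y₀) - pt t m (vac m)) / 2).toNat = N
        omega
      refine ⟨he, ?_⟩
      rw [hU, hn1]
      push_cast
      rw [Finset.sum_mul]
      apply Finset.sum_congr rfl
      intro y hy
      by_cases hy' : rem 1 S y ∈ ends k (vac m)
      · rw [((ih (rem 1 S y)).2 hy').2]
        have h8 : e1 t m (k + 1) S =
            (k + 1 + (dn 1 y).2 + tb t (dn 1 y).1 - m) + e1 t m k (rem 1 S y) := by
          have h9 := hstep y hy hy'
          rw [← he] at h9
          omega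
        unfold wP
        rw [h8, pow_add]
        ring
      · rw [(ih (rem 1 S y)).1 hy', mul_zero]
        have h10 : np k (vac m) (rem 1 S y) = 0 := by
          by_contra h11
          exact hy' ((hNPR k (vac m) (rem 1 S y)).2.2.2 h11)
        rw [h10]
        simp

end

end Pool.Agent.PN
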